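import Mathlib
import Pool.Agent.R327.SIA9

set_option autoImplicit false

/-!
# Large values at well-spaced points: the conjectured bound for supports in short intervals, `T ≤ N²`

The statement of Q1 holds for all `T ≤ N²` and all coefficients bounded by `1` which vanish outside an interval
of at most `N^(5/9)` consecutive integers of `[N/2, N]` (for `N^(1/2)` it is trivial).
-/

namespace Pool.Agent.Results.MP_a93a41_nt.ShortIntervals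

open Finset

/-- `D(it) = ∑_{n ≤ N} a_n n^{-it}` -/
noncomputable def D (N : ℕ) (a : ℕ → ℂ) (t : ℝ) : ℂ :=
  ∑ n ∈ Icc 1 N, a n * Complex.exp (-(Complex.I * (t : ℂ) * (Real.log (n : ℝ) : ℂ)))

open Pool.Agent.R327.SI in
/-- Let `|a_n| ≤ 1`, let `a` vanish in `[1, N]` outside `[m, m + L)`, where `m ≥ N/2` and `L ≤ N^(5/9)`, let
`1 ≤ T ≤ N²` and `V² ≥ N T^ε`. If `S ⊂ [0,T]` is `1`-separated and `|D(it)| ≥ V` on `S` then
`|S| ≤ C(ε) N² V^(-2) T^ε`. -/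
theorem result (ε : ℝ) (hε : 0 < ε) : ∃ C : ℝ, ∀ (N m L : ℕ) (T V : ℝ) (a : ℕ → ℂ), 1 ≤ N → N ≤ 2 * m →
    (L : ℝ) ≤ (N : ℝ) ^ (5 / 9 : ℝ) → 1 ≤ T → T ≤ (N : ℝ) ^ 2 → 0 < V → N * T ^ ε ≤ V ^ 2 →
    (∀ n, ‖a n‖ ≤ 1) → (∀ n ∈ Icc 1 N, a n ≠ 0 → m ≤ n ∧ n < m + L) →
    ∀ S : Finset ℝ, (∀ t ∈ S, 0 ≤ t ∧ t ≤ T) → (∀ t ∈ S, ∀ u ∈ S, t ≠ u → 1 ≤ |t - u|) →
      (∀ t ∈ S, V ≤ ‖D N a t‖) → (S.card : ℝ) ≤ C * ((N : ℝ) ^ 2 / V ^ 2 * T ^ ε) := by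
  obtain ⟨C0, hC0, h⟩ := goodI
  obtain ⟨C, _, hC⟩ := A9.key (1 / 18) C0 ε (by norm_num) le_rfl hC0 hε
  refine ⟨C, ?_⟩
  intro N m L T V a hN hNm hL hT1 hT hV hVN ha hs S hS hsep hD
  have hN1 : (1 : ℝ) ≤ N := by exact_mod_cast hN
  refine hC N m 1 L T V hN hNm le_rfl hT1 hV hVN ?_ a ha ?_ S hS hsep hD
  · intro hm _
    have h2 := supp_len N (2 * ((N + 1) / 2)) m 1 L hm (by omega)
    have hN2 : (N : ℝ) ≤ 2 * ((N + 1) / 2 : ℕ) := by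
      have : N ≤ 2 * ((N + 1) / 2) := by omega
      exact_mod_cast this
    apply h ((N + 1) / 2) m _ (by omega) (by omega) (by omega)
    · have h3 : ((min L ((N - m) / 1 + 1) : ℕ) : ℝ) ≤ L := by exact_mod_cast min_le_left _ _
      calc ((min L ((N - m) / 1 + 1) : ℕ) : ℝ) ≤ (N : ℝ) ^ (5 / 9 : ℝ) := h3.trans hL
        _ ≤ (2 * ((N + 1) / 2 : ℕ) : ℝ) ^ (5 / 9 : ℝ) := Real.rpow_le_rpow (by linarith) hN2 (by norm_num)
        _ = 2 ^ (5 / 9 : ℝ) * (((N + 1) / 2 : ℕ) : ℝ) ^ (5 / 9 : ℝ) := by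
            rw [Real.mul_rpow (by norm_num) (Nat.cast_nonneg _)]
        _ ≤ 2 * (((N + 1) / 2 : ℕ) : ℝ) ^ (5 / 9 : ℝ) := by
            have : (2 : ℝ) ^ (5 / 9 : ℝ) ≤ 2 := by
              calc (2 : ℝ) ^ (5 / 9 : ℝ) ≤ 2 ^ (1 : ℝ) :=
                    Real.rpow_le_rpow_of_exponent_le (by norm_num) (by norm_num)
                _ = 2 := Real.rpow_one _
            gcongr
    · calc T ≤ (N : ℝ) ^ 2 := hT
        _ ≤ (2 * ((N + 1) / 2 : ℕ) : ℝ) ^ 2 := by gcongr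
        _ = _ := by ring
  · intro n hn hne
    have := hs n hn hne
    exact ⟨n - m, by omega, by omega⟩

end Pool.Agent.Results.MP_a93a41_nt.ShortIntervals
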