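import Mathlib
import Pool.Agent.R327.SIA9

set_option autoImplicit false

/-!
# Large values at well-spaced points: the conjectured bound for supports in short arithmetic progressions

For every `ε > 0` there is `c > 0` such that the statement of Q1 holds, for all `T`, for all coefficients
bounded by `1` which vanish outside an arithmetic progression with at most `N^(1/2+c)` terms in `[N/2, N]`, of
any first term and any difference.
-/

namespace Pool.Agent.Results.MP_a93a41_nt.ShortProgressions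

open Finset

/-- `D(it) = ∑_{n ≤ N} a_n n^{-it}` -/
noncomputable def D (N : ℕ) (a : ℕ → ℂ) (t : ℝ) : ℂ :=
  ∑ n ∈ Icc 1 N, a n * Complex.exp (-(Complex.I * (t : ℂ) * (Real.log (n : ℝ) : ℂ)))

open Pool.Agent.R327.SI in
/-- For every `ε > 0` there are `c > 0` and `C` with the following property. Let `|a_n| ≤ 1`, let `a` vanish in
`[1, N]` outside the progression `m, m + d, …, m + (L-1) d`, where `m ≥ N/2` and `L ≤ N^(1/2+c)`, let `T ≥ 1` and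
`V² ≥ N T^ε`. If `S ⊂ [0,T]` is `1`-separated and `|D(it)| ≥ V` on `S` then `|S| ≤ C N² V^(-2) T^ε`. -/
theorem result (ε : ℝ) (hε : 0 < ε) : ∃ c : ℝ, 0 < c ∧ ∃ C : ℝ, ∀ (N m d L : ℕ) (T V : ℝ) (a : ℕ → ℂ),
    1 ≤ N → N ≤ 2 * m → 1 ≤ d → (L : ℝ) ≤ (N : ℝ) ^ (1 / 2 + c) → 1 ≤ T → 0 < V → N * T ^ ε ≤ V ^ 2 →
    (∀ n, ‖a n‖ ≤ 1) → (∀ n ∈ Icc 1 N, a n ≠ 0 → ∃ j < L, n = m + d * j) →
    ∀ S : Finset ℝ, (∀ t ∈ S, 0 ≤ t ∧ t ≤ T) → (∀ t ∈ S, ∀ u ∈ S, t ≠ u → 1 ≤ |t - u|) →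
      (∀ t ∈ S, V ≤ ‖D N a t‖) → (S.card : ℝ) ≤ C * ((N : ℝ) ^ 2 / V ^ 2 * T ^ ε) := by
  obtain ⟨c, hc0, hc, C0, hC0, h⟩ := goodAP (max 1 (1 / ε)) (le_max_left _ _)
  obtain ⟨C, _, hC⟩ := A9.key c C0 ε hc0.le (by linarith) hC0 hε
  refine ⟨c, hc0, C, ?_⟩
  intro N m d L T V a hN hNm hd hL hT1 hV hVN ha hs S hS hsep hD
  have hN1 : (1 : ℝ) ≤ N := by exact_mod_cast hN
  refine hC N m d L T V hN hNm hd hT1 hV hVN ?_ a ha hs S hS hsep hD
  intro hm hTN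
  have h2 := supp_len N (2 * ((N + 1) / 2)) m d L hm (by omega)
  have hN2 : (N : ℝ) ≤ 2 * ((N + 1) / 2 : ℕ) := by
    have : N ≤ 2 * ((N + 1) / 2) := by omega
    exact_mod_cast this
  apply h ((N + 1) / 2) m d _ (by omega) hd (by omega) (by omega)
  · have h3 : ((min L ((N - m) / d + 1) : ℕ) : ℝ) ≤ L := by exact_mod_cast min_le_left _ _
    calc ((min L ((N - m) / d + 1) : ℕ) : ℝ) ≤ (N : ℝ) ^ (1 / 2 + c) := h3.trans hL
      _ ≤ (2 * ((N + 1) / 2 : ℕ) : ℝ) ^ (1 / 2 + c) := Real.rpow_le_rpow (by linarith) hN2 (by linarith)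
      _ = 2 ^ (1 / 2 + c) * (((N + 1) / 2 : ℕ) : ℝ) ^ (1 / 2 + c) := by
          rw [Real.mul_rpow (by norm_num) (Nat.cast_nonneg _)]
      _ ≤ 2 * (((N + 1) / 2 : ℕ) : ℝ) ^ (1 / 2 + c) := by
          have : (2 : ℝ) ^ (1 / 2 + c) ≤ 2 := by
            calc (2 : ℝ) ^ (1 / 2 + c) ≤ 2 ^ (1 : ℝ) :=
                  Real.rpow_le_rpow_of_exponent_le (by norm_num) (by linarith)
              _ = 2 := Real.rpow_one _
          gcongr
  · calc T ≤ (N : ℝ) ^ (1 / ε) := hTN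
      _ ≤ (N : ℝ) ^ (max 1 (1 / ε)) := Real.rpow_le_rpow_of_exponent_le hN1 (le_max_right _ _)
      _ ≤ (2 * ((N + 1) / 2 : ℕ) : ℝ) ^ (max 1 (1 / ε)) :=
          Real.rpow_le_rpow (by linarith) hN2 (by positivity)

end Pool.Agent.Results.MP_a93a41_nt.ShortProgressions
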