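import Mathlib
import Pool.Agent.R516.MSE

set_option autoImplicit false

/-!
# Large values at well-spaced points for supports on multiples of a sparse set, and on the integers `β d^k`

For every `ε > 0`, `K ≥ 1`, `0 < μ ≤ 1` there is `c > 0` such that the statement of Q1 holds, for all `T` and even
without the factor `T^ε` in the conclusion, for all coefficients bounded by `1` supported on those integers `β d^k`
of `[N/2, N]`, where the pairs `(β, k)` run over any set `B` with `β ≤ N^(1-μ)`, `k ≤ K` and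
`∑_{(β,k) ∈ B} (N/β)^(1/k) ≤ N^(1/2+c)`, and on any `N^(1/2)` further integers of `[N/2, N]`.
-/

namespace Pool.Agent.Results.MP_a93a41_nt.SparseMultiples

open Finset

/-- `D(it) = ∑_{n ≤ N} a_n n^{-it}` -/
noncomputable def D (N : ℕ) (a : ℕ → ℂ) (t : ℝ) : ℂ :=
  ∑ n ∈ Icc 1 N, a n * Complex.exp (-(Complex.I * (t : ℂ) * (Real.log (n : ℝ) : ℂ)))

/-- `n` is of the form `β d^k` with `(β, k) ∈ B` and an integer `d`, or an element of `E` -/
def Supp (B : Finset (ℕ × ℕ)) (E : Finset ℕ) (n : ℕ) : Prop :=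
  n ∈ E ∨ ∃ p ∈ B, ∃ d : ℕ, n = p.1 * d ^ p.2

/-- the pairs `(β, k) ∈ B` satisfy `1 ≤ β ≤ N^(1-μ)`, `1 ≤ k ≤ K` and `∑ (N/β)^(1/k) ≤ N^(1/2+c)`, and `E` has
at most `N^(1/2)` elements -/
def Thin (N : ℕ) (μ c : ℝ) (K : ℕ) (B : Finset (ℕ × ℕ)) (E : Finset ℕ) : Prop :=
  (∀ p ∈ B, 1 ≤ p.1 ∧ (p.1 : ℝ) ≤ (N : ℝ) ^ (1 - μ) ∧ 1 ≤ p.2 ∧ p.2 ≤ K) ∧
    ∑ p ∈ B, ((N : ℝ) / p.1) ^ ((1 : ℝ) / p.2) ≤ (N : ℝ) ^ (1 / 2 + c) ∧
    (E.card : ℝ) ≤ (N : ℝ) ^ (1 / 2 : ℝ)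

open Pool.Agent.R516.MS in
open Pool.Agent.TH705.DL (ph ph_norm Sep) in
open Pool.Agent.R327.SI (card_sep) in
/-- Let `ε > 0`, `K ≥ 1`, `0 < μ ≤ 1`. There are `c > 0` and `C` such that for all `T ≥ 1`, all `V > 0` with
`V² ≥ N T^ε`, all `B`, `E` satisfying `Thin`, all `|a_n| ≤ 1` vanishing in `[1,N]` outside the integers of `[N/2, N]`
of the form `β d^k`, `(β, k) ∈ B`, or in `E`, and all `1`-separated `S ⊂ [0,T]` with `|D(it)| ≥ V` on `S`:
`|S| ≤ C N² V^(-2)`. -/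
theorem result (ε μ : ℝ) (K : ℕ) (hε : 0 < ε) (hμ : 0 < μ) (hμ1 : μ ≤ 1) (hK : 1 ≤ K) :
    ∃ c C : ℝ, 0 < c ∧ ∀ (N : ℕ) (B : Finset (ℕ × ℕ)) (E : Finset ℕ) (T V : ℝ) (a : ℕ → ℂ), 1 ≤ N →
      Thin N μ c K B E → 1 ≤ T → 0 < V → N * T ^ ε ≤ V ^ 2 → (∀ n, ‖a n‖ ≤ 1) →
      (∀ n ∈ Icc 1 N, a n ≠ 0 → N ≤ 2 * n ∧ Supp B E n) →
      ∀ S : Finset ℝ, (∀ t ∈ S, 0 ≤ t ∧ t ≤ T) → (∀ t ∈ S, ∀ u ∈ S, t ≠ u → 1 ≤ |t - u|) →
        (∀ t ∈ S, V ≤ ‖D N a t‖) → (S.card : ℝ) ≤ C * (N : ℝ) ^ 2 / V ^ 2 := by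
  classical
  obtain ⟨c, C0, hc0, hC0, h⟩ := onOne (max 1 (1 / ε)) μ K (le_max_left _ _) hμ hμ1 hK
  have hB0 : (1 : ℝ) ≤ (2 * C0) ^ (1 / ε) := Real.one_le_rpow (by linarith) (by positivity)
  refine ⟨c, max (2 * C0) (2 * (2 * C0) ^ (1 / ε)), hc0, ?_⟩
  intro N B E T V a hN hBE hT1 hV hVN ha hs S hS hsep hD
  obtain ⟨h1, h2, h3⟩ := hBE
  have hN1 : (1 : ℝ) ≤ N := by exact_mod_cast hN
  have hN0 : (0 : ℝ) < N := by linarith
  rcases S.eq_empty_or_nonempty with hSe | ⟨t0, ht0⟩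
  · rw [hSe]
    simp only [card_empty, Nat.cast_zero]
    have : 0 < 2 * C0 := by linarith
    positivity
  have hDph : ∀ t : ℝ, D N a t = ∑ n ∈ Icc 1 N, a n * ph (-t) n := by
    intro t
    unfold D ph
    apply sum_congr rfl
    intro n _
    congr 2
    push_cast
    ring
  have hDN : ∀ t : ℝ, ‖D N a t‖ ≤ N := by
    intro t
    rw [hDph]
    refine (norm_sum_le _ _).trans ?_
    calc ∑ n ∈ Icc 1 N, ‖a n * ph (-t) n‖ ≤ ∑ n ∈ Icc 1 N, (1 : ℝ) := by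
          apply sum_le_sum
          intro n _
          rw [norm_mul, ph_norm, mul_one]
          exact ha n
      _ = N := by rw [sum_const, Nat.card_Icc, nsmul_eq_mul, mul_one, Nat.add_sub_cancel]
  have hVle : V ≤ N := (hD t0 ht0).trans (hDN t0)
  have hVsq : V ^ 2 ≤ (N : ℝ) ^ 2 := pow_le_pow_left₀ hV.le hVle 2
  have hTN : T ≤ (N : ℝ) ^ (max 1 (1 / ε)) := by
    have e1 : T ^ ε ≤ N := by
      have : N * T ^ ε ≤ N * N := by nlinarith
      exact le_of_mul_le_mul_left this hN0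
    calc T = (T ^ ε) ^ (1 / ε) := by
          rw [← Real.rpow_mul (by linarith), mul_one_div_cancel hε.ne', Real.rpow_one]
      _ ≤ (N : ℝ) ^ (1 / ε) := Real.rpow_le_rpow (by positivity) e1 (by positivity)
      _ ≤ _ := Real.rpow_le_rpow_of_exponent_le hN1 (le_max_right _ _)
  rcases le_or_gt (2 * C0 * N) (V ^ 2) with hb | hb
  · set W : Finset ℝ := S.image (fun t => -t) with hW
    have hinj : Set.InjOn (fun t : ℝ => -t) (S : Set ℝ) := fun _ _ _ _ h => neg_injective h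
    have hWsep : Sep W := by
      intro t ht u hu hne
      rw [hW, mem_image] at ht hu
      obtain ⟨t', ht', rfl⟩ := ht
      obtain ⟨u', hu', rfl⟩ := hu
      have hne' : u' ≠ t' := fun e => hne (by rw [e])
      have := hsep u' hu' t' ht' hne'
      have e : -t' - -u' = u' - t' := by ring
      rw [e]
      exact this
    have hWT : ∀ t ∈ W, -T ≤ t ∧ t ≤ -T + T := by
      intro t ht
      rw [hW, mem_image] at ht
      obtain ⟨t', ht', rfl⟩ := ht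
      obtain ⟨e1, e2⟩ := hS t' ht'
      constructor <;> linarith
    have h5 := (h N B E hN h1 h2 h3 T (-T) W a hTN hWsep hWT hs).1 ha
    have h6 := (large (by linarith) hN0.le W (fun t => ‖∑ n ∈ Icc 1 N, a n * ph t n‖) h5 hV hb (by
      intro t ht
      rw [hW, mem_image] at ht
      obtain ⟨t', ht', rfl⟩ := ht
      rw [← hDph]
      exact hD t' ht')).1
    have hcard : W.card = S.card := card_image_of_injOn hinj
    rw [hcard] at h6
    refine h6.trans ?_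
    have := le_max_left (2 * C0) (2 * (2 * C0) ^ (1 / ε))
    gcongr
  · have e1 : T ^ ε ≤ 2 * C0 := by
      have : N * T ^ ε ≤ N * (2 * C0) := by linarith
      exact le_of_mul_le_mul_left this hN0
    have e2 : T ≤ (2 * C0) ^ (1 / ε) := by
      calc T = (T ^ ε) ^ (1 / ε) := by
            rw [← Real.rpow_mul (by linarith), mul_one_div_cancel hε.ne', Real.rpow_one]
        _ ≤ _ := Real.rpow_le_rpow (by positivity) e1 (by positivity)
    have e3 := card_sep S hsep 0 T (by linarith) hS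
    have e4 : (1 : ℝ) ≤ (N : ℝ) ^ 2 / V ^ 2 := by
      rw [le_div_iff₀ (by positivity)]
      linarith
    have e5 : (S.card : ℝ) ≤ max (2 * C0) (2 * (2 * C0) ^ (1 / ε)) := by
      have := le_max_right (2 * C0) (2 * (2 * C0) ^ (1 / ε))
      linarith
    have e6 : 0 ≤ max (2 * C0) (2 * (2 * C0) ^ (1 / ε)) := by
      refine le_trans ?_ (le_max_left _ _)
      linarith
    calc (S.card : ℝ) ≤ max (2 * C0) (2 * (2 * C0) ^ (1 / ε)) * 1 := by linarith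
      _ ≤ max (2 * C0) (2 * (2 * C0) ^ (1 / ε)) * ((N : ℝ) ^ 2 / V ^ 2) := by gcongr
      _ = _ := by ring

end Pool.Agent.Results.MP_a93a41_nt.SparseMultiples
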